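import Mathlib

set_option autoImplicit false

/-! Averages over finite types and combinatorial subspaces, for the density Hales-Jewett theorem. -/

namespace Pool.Agent.DHJ

open Combinatorics

/-! ### Averages -/

/-- The average of a real function on a finite type. -/
noncomputable def E {X : Type} [Finite X] (f : X → ℝ) : ℝ :=
  (∑ x ∈ @Finset.univ X (Fintype.ofFinite X), f x) / (Nat.card X : ℝ)

lemma E_eq {X : Type} [Fintype X] (f : X → ℝ) : E f = (∑ x, f x) / (Fintype.card X : ℝ) := by
  unfold E
  rw [Nat.card_eq_fintype_card]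
  congr 1
  apply Finset.sum_congr _ (fun _ _ => rfl)
  ext x
  simp

section E

variable {X Y : Type} [Finite X] [Finite Y]

lemma E_const [Nonempty X] (c : ℝ) : E (fun _ : X => c) = c := by
  have := Fintype.ofFinite X
  rw [E_eq]
  simp

lemma E_add (f g : X → ℝ) : E (fun x => f x + g x) = E f + E g := by
  have := Fintype.ofFinite X
  rw [E_eq, E_eq, E_eq, Finset.sum_add_distrib, add_div]

lemma E_sub (f g : X → ℝ) : E (fun x => f x - g x) = E f - E g := by
  have := Fintype.ofFinite X
  rw [E_eq, E_eq, E_eq, Finset.sum_sub_distrib, sub_div]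

lemma E_mul (c : ℝ) (f : X → ℝ) : E (fun x => c * f x) = c * E f := by
  have := Fintype.ofFinite X
  rw [E_eq, E_eq, ← Finset.mul_sum, mul_div_assoc]

lemma E_mono {f g : X → ℝ} (h : ∀ x, f x ≤ g x) : E f ≤ E g := by
  have := Fintype.ofFinite X
  rw [E_eq, E_eq]
  gcongr with x _
  exact h x

lemma E_nonneg {f : X → ℝ} (h : ∀ x, 0 ≤ f x) : 0 ≤ E f := by
  have := Fintype.ofFinite X
  rw [E_eq]
  exact div_nonneg (Finset.sum_nonneg fun x _ => h x) (Nat.cast_nonneg _)

lemma E_le_of {f : X → ℝ} [Nonempty X] {c : ℝ} (h : ∀ x, f x ≤ c) : E f ≤ c := by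
  rw [← E_const (X := X) c]
  exact E_mono h

lemma le_E_of {f : X → ℝ} [Nonempty X] {c : ℝ} (h : ∀ x, c ≤ f x) : c ≤ E f := by
  rw [← E_const (X := X) c]
  exact E_mono h

lemma exists_ge_E [Nonempty X] {f : X → ℝ} {c : ℝ} (h : c ≤ E f) : ∃ x, c ≤ f x := by
  by_contra hcon
  push Not at hcon
  have := Fintype.ofFinite X
  rw [E_eq] at h
  have hpos : (0 : ℝ) < Fintype.card X := by exact_mod_cast Fintype.card_pos
  rw [le_div_iff₀ hpos] at h
  have h2 : ∑ x, f x < ∑ _x : X, c := Finset.sum_lt_sum_of_nonempty Finset.univ_nonempty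
    (fun x _ => hcon x)
  simp at h2
  linarith

lemma E_equiv (e : X ≃ Y) (f : Y → ℝ) : E (fun x => f (e x)) = E f := by
  have := Fintype.ofFinite X
  have := Fintype.ofFinite Y
  rw [E_eq, E_eq, Equiv.sum_comp e f, Fintype.card_congr e]

lemma E_prod (f : X × Y → ℝ) : E f = E (fun x => E fun y => f (x, y)) := by
  have := Fintype.ofFinite X
  have := Fintype.ofFinite Y
  simp only [E_eq]
  rw [Fintype.sum_prod_type, Fintype.card_prod, ← Finset.sum_div, div_div]
  push_cast
  rw [mul_comm (Fintype.card X : ℝ)]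

lemma E_comm (f : X → Y → ℝ) : E (fun x => E fun y => f x y) = E (fun y => E fun x => f x y) := by
  rw [← E_prod (fun p : X × Y => f p.1 p.2), ← E_prod (fun p : Y × X => f p.2 p.1)]
  rw [← E_equiv (Equiv.prodComm X Y)]
  rfl

lemma E_finset_sum {T : Type} (s : Finset T) (f : T → X → ℝ) :
    E (fun x => ∑ t ∈ s, f t x) = ∑ t ∈ s, E (f t) := by
  have := Fintype.ofFinite X
  simp only [E_eq]
  rw [Finset.sum_comm, Finset.sum_div]

end E

/-- Average over words indexed by a sum. -/
lemma E_sum {ι κ α : Type} [Finite ι] [Finite κ] [Finite α] (f : (ι ⊕ κ → α) → ℝ) :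
    E f = E (fun x : ι → α => E fun y : κ → α => f (Sum.elim x y)) := by
  rw [← E_prod (fun p : (ι → α) × (κ → α) => f (Sum.elim p.1 p.2))]
  rw [← E_equiv (Equiv.sumArrowEquivProdArrow ι κ α)]
  congr 1
  funext z
  congr 1
  funext i
  cases i <;> rfl

lemma E_sum' {ι κ α : Type} [Finite ι] [Finite κ] [Finite α] (f : (ι ⊕ κ → α) → ℝ) :
    E f = E (fun y : κ → α => E fun x : ι → α => f (Sum.elim x y)) := by
  rw [E_sum, E_comm]

open Classical in
/-- The indicator of a proposition. -/
noncomputable def ind (p : Prop) : ℝ := if p then 1 else 0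

lemma ind_true {p : Prop} (h : p) : ind p = 1 := by simp [ind, h]

lemma ind_false {p : Prop} (h : ¬ p) : ind p = 0 := by simp [ind, h]

lemma ind_nonneg (p : Prop) : 0 ≤ ind p := by
  by_cases h : p
  · rw [ind_true h]; exact zero_le_one
  · rw [ind_false h]

lemma ind_le_one (p : Prop) : ind p ≤ 1 := by
  by_cases h : p
  · rw [ind_true h]
  · rw [ind_false h]; exact zero_le_one

lemma ind_mono {p q : Prop} (h : p → q) : ind p ≤ ind q := by
  by_cases hp : p
  · rw [ind_true hp, ind_true (h hp)]
  · rw [ind_false hp]; exact ind_nonneg q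

/-- The density of a subset of a finite type. -/
noncomputable def dens {X : Type} [Finite X] (A : Set X) : ℝ := E fun x => ind (x ∈ A)

section dens

variable {X Y : Type} [Finite X] [Finite Y]

lemma dens_nonneg (A : Set X) : 0 ≤ dens A := E_nonneg fun _ => ind_nonneg _

lemma dens_le_one [Nonempty X] (A : Set X) : dens A ≤ 1 := E_le_of fun _ => ind_le_one _

lemma dens_mono {A B : Set X} (h : A ⊆ B) : dens A ≤ dens B :=
  E_mono fun _ => ind_mono fun hx => h hx

lemma dens_univ [Nonempty X] : dens (Set.univ : Set X) = 1 := by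
  unfold dens
  rw [← E_const (X := X) 1]
  congr 1
  funext x
  exact ind_true (Set.mem_univ x)

lemma nonempty_of_dens_pos {A : Set X} (h : 0 < dens A) : A.Nonempty := by
  by_contra hcon
  rw [Set.not_nonempty_iff_eq_empty] at hcon
  have : dens A = 0 := by
    unfold dens
    have h0 : (fun x => ind (x ∈ A)) = fun _ : X => (0 : ℝ) * 0 := by
      funext x
      rw [ind_false (by rw [hcon]; simp)]
      simp
    rw [h0, E_mul, zero_mul]
  linarith

lemma dens_eq_card [Fintype X] (A : Set X) : dens A = (A.ncard : ℝ) / (Fintype.card X : ℝ) := by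
  classical
  unfold dens
  rw [E_eq]
  congr 1
  simp only [ind]
  rw [Finset.sum_boole, Set.ncard_eq_toFinset_card']
  congr 2
  ext x
  simp

/-- Markov type inequality. -/
lemma markov [Nonempty X] {g : X → ℝ} {c : ℝ} (hc : 0 ≤ c) (hg : ∀ x, g x ≤ 1) (h : c ≤ E g) :
    c / 2 ≤ dens {x | c / 2 ≤ g x} := by
  have h1 : ∀ x, g x ≤ ind (x ∈ {x | c / 2 ≤ g x}) + c / 2 := by
    intro x
    by_cases hx : c / 2 ≤ g x
    · rw [ind_true (show x ∈ {x | c / 2 ≤ g x} from hx)]
      linarith [hg x]
    · rw [ind_false (show ¬ x ∈ {x | c / 2 ≤ g x} from hx)]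
      linarith
  have h2 := E_mono h1
  rw [E_add, E_const] at h2
  unfold dens
  linarith

/-- Pigeonhole principle for densities. -/
lemma pigeonhole {T : Type} [Finite T] [Nonempty T] {A : Set X} {R : T → X → Prop} {a : ℝ}
    (hR : ∀ x ∈ A, ∃ t, R t x) (ha : a ≤ dens A) :
    ∃ t, a / (Nat.card T : ℝ) ≤ dens {x | R t x} := by
  have := Fintype.ofFinite T
  rw [Nat.card_eq_fintype_card]
  have hT : (0 : ℝ) < Fintype.card T := by exact_mod_cast Fintype.card_pos
  by_contra hcon
  push Not at hcon
  have h1 : dens A ≤ ∑ t : T, dens {x | R t x} := by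
    unfold dens
    rw [← E_finset_sum]
    apply E_mono
    intro x
    by_cases hx : x ∈ A
    · obtain ⟨t, ht⟩ := hR x hx
      rw [ind_true hx, ← ind_true (show x ∈ {x | R t x} from ht)]
      exact Finset.single_le_sum (f := fun t => ind (x ∈ {x | R t x}))
        (fun t _ => ind_nonneg _) (Finset.mem_univ t)
    · rw [ind_false hx]
      exact Finset.sum_nonneg fun t _ => ind_nonneg _
  have h2 : ∑ t : T, dens {x | R t x} < ∑ _t : T, a / (Fintype.card T : ℝ) :=
    Finset.sum_lt_sum_of_nonempty Finset.univ_nonempty (fun t _ => hcon t)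
  simp only [Finset.sum_const, Finset.card_univ, nsmul_eq_mul] at h2
  rw [mul_div_cancel₀ _ hT.ne'] at h2
  linarith

end dens

/-! ### Subspaces -/

section Sub

variable {η θ α β ι κ : Type}

/-- Composition of subspaces. -/
def comp (V : Subspace η α ι) (W : Subspace θ α η) : Subspace θ α ι where
  idxFun i := Sum.elim Sum.inl W.idxFun (V.idxFun i)
  proper e := by
    obtain ⟨j, hj⟩ := W.proper e
    obtain ⟨i, hi⟩ := V.proper j
    exact ⟨i, by rw [hi]; exact hj⟩

lemma comp_apply (V : Subspace η α ι) (W : Subspace θ α η) (x : θ → α) :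
    comp V W x = V (W x) := by
  funext i
  simp only [Subspace.coe_apply, comp]
  cases V.idxFun i with
  | inl a => rfl
  | inr j => rfl

/-- A subspace over the alphabet `β`, seen over the alphabet `Option β`. -/
def hat (V : Subspace η β ι) : Subspace η (Option β) ι where
  idxFun i := Sum.map some id (V.idxFun i)
  proper e := by
    obtain ⟨i, hi⟩ := V.proper e
    exact ⟨i, by rw [hi]; rfl⟩

lemma hat_comp (V : Subspace η β ι) (W : Subspace θ β η) : hat (comp V W) = comp (hat V) (hat W) := by
  ext i
  simp only [hat, comp]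
  cases V.idxFun i <;> rfl

/-- The word `x^b` over `β`: replace `none` by `b`. -/
def fill (b : β) (x : ι → Option β) : ι → β := fun i => (x i).getD b

lemma fill_hat (V : Subspace η β ι) (b : β) (x : η → Option β) :
    fill b (hat V x) = V (fill b x) := by
  funext i
  simp only [fill, Subspace.coe_apply, hat]
  cases V.idxFun i with
  | inl a => rfl
  | inr j => rfl

lemma hat_some (V : Subspace η β ι) (x : η → β) :
    hat V (fun j => some (x j)) = fun i => some (V x i) := by
  funext i
  simp only [Subspace.coe_apply, hat]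
  cases V.idxFun i with
  | inl a => rfl
  | inr j => rfl

/-- `V × {y}`. -/
def inlS (V : Subspace η α ι) (y : κ → α) : Subspace η α (ι ⊕ κ) where
  idxFun := Sum.elim V.idxFun (fun j => Sum.inl (y j))
  proper e := by
    obtain ⟨i, hi⟩ := V.proper e
    exact ⟨Sum.inl i, hi⟩

lemma inlS_apply (V : Subspace η α ι) (y : κ → α) (x : η → α) :
    inlS V y x = Sum.elim (V x) y := by
  funext i
  cases i <;> rfl

/-- `{x} × V`. -/
def inrS (x : ι → α) (V : Subspace η α κ) : Subspace η α (ι ⊕ κ) where
  idxFun := Sum.elim (fun j => Sum.inl (x j)) V.idxFun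
  proper e := by
    obtain ⟨i, hi⟩ := V.proper e
    exact ⟨Sum.inr i, hi⟩

lemma inrS_apply (x : ι → α) (V : Subspace η α κ) (y : η → α) :
    inrS x V y = Sum.elim x (V y) := by
  funext i
  cases i <;> rfl

/-- The identity subspace. -/
def idS (η α : Type) : Subspace η α η := ⟨Sum.inr, fun i => ⟨i, rfl⟩⟩

lemma idS_apply (x : η → α) : idS η α x = x := rfl

/-- The image of a line under a subspace. -/
def compLine (V : Subspace η α ι) (l : Line α η) : Line α ι where
  idxFun i := Sum.elim some l.idxFun (V.idxFun i)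
  proper := by
    obtain ⟨j, hj⟩ := l.proper
    obtain ⟨i, hi⟩ := V.proper j
    exact ⟨i, by rw [hi]; exact hj⟩

lemma compLine_apply (V : Subspace η α ι) (l : Line α η) (a : α) :
    compLine V l a = V (l a) := by
  funext i
  rw [Line.coe_apply, Subspace.coe_apply]
  simp only [compLine]
  cases V.idxFun i with
  | inl a => rfl
  | inr j => rfl

/-- `L × V`, for a line `L` and a subspace `V`. -/
def lineProd (L : Line α ι) (V : Subspace η α κ) : Subspace (Option η) α (ι ⊕ κ) where
  idxFun := Sum.elim (fun i => (L.idxFun i).elim (Sum.inr none) Sum.inl)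
    (fun j => Sum.map id some (V.idxFun j))
  proper e := by
    cases e with
    | none =>
      obtain ⟨i, hi⟩ := L.proper
      exact ⟨Sum.inl i, by simp [hi]⟩
    | some e =>
      obtain ⟨i, hi⟩ := V.proper e
      exact ⟨Sum.inr i, by simp [hi]⟩

lemma lineProd_apply (L : Line α ι) (V : Subspace η α κ) (x : Option η → α) :
    lineProd L V x = Sum.elim (L (x none)) (V (fun e => x (some e))) := by
  funext i
  cases i with
  | inl i =>
    rw [Subspace.coe_apply, Sum.elim_inl, Line.coe_apply]
    simp only [lineProd, Sum.elim_inl]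
    cases L.idxFun i <;> rfl
  | inr i =>
    rw [Subspace.coe_apply, Sum.elim_inr, Subspace.coe_apply]
    simp only [lineProd, Sum.elim_inr]
    cases V.idxFun i <;> rfl

instance finite_line [Finite α] [Finite ι] : Finite (Line α ι) :=
  Finite.of_injective (fun l : Line α ι => l.idxFun) (fun l l' h => by
    ext i : 2
    exact congrFun h i)

instance finite_subspace [Finite η] [Finite α] [Finite ι] : Finite (Subspace η α ι) :=
  Finite.of_injective (fun l : Subspace η α ι => l.idxFun) (fun l l' h => by
    ext i : 2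
    exact congrFun h i)

/-- The subspace obtained by restricting coordinates along an embedding, the other coordinates
being fixed. -/
noncomputable def coordS (e : η ↪ ι) (a : α) : Subspace η α ι where
  idxFun i := by
    classical
    exact if h : ∃ j, e j = i then Sum.inr h.choose else Sum.inl a
  proper j := ⟨e j, by
    have h : ∃ j', e j' = e j := ⟨j, rfl⟩
    rw [dif_pos h]
    congr 1
    exact e.injective h.choose_spec⟩

end Sub

end Pool.Agent.DHJ
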