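import Mathlib
import Pool.Agent.DHJ.Basic

set_option autoImplicit false

/-! The multidimensional version, and subspaces in insensitive sets. -/

namespace Pool.Agent.DHJ

open Combinatorics

/-- The density Hales-Jewett property of the alphabet `β`. -/
def DHJ (β : Type) [Finite β] : Prop :=
  ∀ δ : ℝ, 0 < δ → ∃ (ι : Type) (_ : Finite ι), ∀ A : Set (ι → β), δ ≤ dens A →
    ∃ l : Line β ι, ∀ b, l b ∈ A

/-- Multidimensional density Hales-Jewett. -/
lemma multi {β : Type} [Finite β] [Nonempty β] (hP : DHJ β) (η : Type) [Finite η] :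
    ∀ δ : ℝ, 0 < δ → ∃ (ι : Type) (_ : Finite ι), ∀ A : Set (ι → β), δ ≤ dens A →
      ∃ V : Subspace η β ι, ∀ x, V x ∈ A := by
  induction η using Finite.induction_empty_option with
  | of_equiv e ih =>
    intro δ hδ
    obtain ⟨ι, hι, h⟩ := ih δ hδ
    refine ⟨ι, hι, fun A hA => ?_⟩
    obtain ⟨V, hV⟩ := h A hA
    refine ⟨V.reindex e (Equiv.refl _) (Equiv.refl _), fun x => ?_⟩
    have : (V.reindex e (Equiv.refl _) (Equiv.refl _)) x = V (x ∘ e) := by
      funext i
      rw [Subspace.reindex_apply]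
      rfl
    rw [this]
    exact hV _
  | h_empty =>
    intro δ hδ
    refine ⟨PEmpty, inferInstance, fun A hA => ?_⟩
    obtain ⟨x, hx⟩ := nonempty_of_dens_pos (lt_of_lt_of_le hδ hA)
    refine ⟨idS PEmpty β, fun y => ?_⟩
    have : idS PEmpty β y = x := Subsingleton.elim _ _
    rw [this]
    exact hx
  | @h_option η _ ih =>
    intro δ hδ
    by_cases hδ1 : δ ≤ 1
    · obtain ⟨ι1, hι1, h1⟩ := hP (δ / 2) (by positivity)
      have hne : Nonempty (Line β ι1) := by
        obtain ⟨l, -⟩ := h1 Set.univ (by rw [dens_univ]; linarith)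
        exact ⟨l⟩
      have hpos : (0 : ℝ) < Nat.card (Line β ι1) := by exact_mod_cast Nat.card_pos
      obtain ⟨ι2, hι2, h2⟩ := ih (δ / 2 / Nat.card (Line β ι1)) (by positivity)
      refine ⟨ι1 ⊕ ι2, inferInstance, fun A hA => ?_⟩
      have hE : dens A = E (fun y : ι2 → β => dens {x : ι1 → β | Sum.elim x y ∈ A}) := by
        unfold dens
        rw [E_sum']
        rfl
      have hm := markov (g := fun y : ι2 → β => dens {x : ι1 → β | Sum.elim x y ∈ A}) hδ.le
        (fun y => dens_le_one _) (by rw [← hE]; exact hA)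
      obtain ⟨L, hL⟩ := pigeonhole (T := Line β ι1)
        (R := fun L (y : ι2 → β) => ∀ b, Sum.elim (L b) y ∈ A)
        (fun y hy => h1 _ hy) hm
      obtain ⟨V, hV⟩ := h2 _ hL
      refine ⟨lineProd L V, fun x => ?_⟩
      rw [lineProd_apply]
      exact hV _ _
    · refine ⟨PEmpty, inferInstance, fun A hA => ?_⟩
      have := dens_le_one A
      linarith

end Pool.Agent.DHJ
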