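import Mathlib
import Pool.Agent.DHJ.Multi

set_option autoImplicit false

/-! Subspaces in insensitive sets. -/

namespace Pool.Agent.DHJ

open Combinatorics

lemma E_eval {ι Z : Type} [Finite ι] [Finite Z] [Nonempty Z] (i : ι) (f : Z → ℝ) :
    E (fun x : ι → Z => f (x i)) = E f := by
  classical
  have h : E (fun p : Z × ({j // j ≠ i} → Z) => f p.1) = E f := by
    rw [E_prod]
    simp only [E_const]
  rw [← h, ← E_equiv (Equiv.funSplitAt i Z)]
  rfl

lemma dens_singleton {X : Type} [Finite X] (x : X) : dens {x} = 1 / (Nat.card X : ℝ) := by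
  have := Fintype.ofFinite X
  rw [dens_eq_card, Set.ncard_singleton, Nat.card_eq_fintype_card]
  simp

/-- `D` is `b`-insensitive: membership of `x` only depends on `x^b`. -/
def Insens {ι β : Type} (b : β) (D : Set (ι → Option β)) : Prop :=
  ∀ x y : ι → Option β, fill b x = fill b y → x ∈ D → y ∈ D

lemma Insens.compl {ι β : Type} {b : β} {D : Set (ι → Option β)} (h : Insens b D) :
    Insens b Dᶜ := fun x y hxy hx hy => hx (h y x hxy.symm hy)

lemma Insens.preimage {ι η β : Type} {b : β} {D : Set (ι → Option β)} (h : Insens b D)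
    (W : Subspace η (Option β) ι) : Insens b {x | W x ∈ D} := by
  intro x y hxy hx
  refine h (W x) (W y) ?_ hx
  funext i
  have h1 : ∀ e, fill b x e = fill b y e := fun e => congrFun hxy e
  simp only [fill] at h1
  simp only [fill, Subspace.coe_apply]
  cases W.idxFun i with
  | inl a => rfl
  | inr j => exact h1 j

section Rerandomise

variable {ι1 J β : Type}

open Classical in
/-- A choice of an index at which the pattern `s` fails. -/
noncomputable def sel (s : J → Prop) : Option J :=
  if h : ∃ j, ¬ s j then some h.choose else none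

lemma sel_some {s : J → Prop} {j : J} (h : sel s = some j) : ¬ s j := by
  classical
  unfold sel at h
  split_ifs at h with hex
  simp only [Option.some.injEq] at h
  rw [← h]
  exact hex.choose_spec

lemma sel_isSome {s : J → Prop} (h : ∃ j, ¬ s j) : ∃ j, sel s = some j := by
  classical
  exact ⟨h.choose, by simp [sel, h]⟩

/-- The `none`-pattern of row `i`. -/
def pat (x : ι1 × J → Option β) (i : ι1) : J → Prop := fun j => x (i, j) = none

open Classical in
/-- Replace the letter at the selected position of each row by the letters of `w`. -/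
noncomputable def rer (x : ι1 × J → Option β) (w : ι1 → β) : ι1 × J → Option β :=
  fun p => if sel (pat x p.1) = some p.2 then some (w p.1) else x p

/-- The letters at the selected positions. -/
noncomputable def old (x : ι1 × J → Option β) (w : ι1 → β) : ι1 → β :=
  fun i => (sel (pat x i)).elim (w i) (fun j => (x (i, j)).getD (w i))

lemma rer_pos {x : ι1 × J → Option β} {w : ι1 → β} {i : ι1} {j : J}
    (h : sel (pat x i) = some j) : rer x w (i, j) = some (w i) := by simp [rer, h]

lemma rer_neg {x : ι1 × J → Option β} {w : ι1 → β} {i : ι1} {j : J}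
    (h : ¬ sel (pat x i) = some j) : rer x w (i, j) = x (i, j) := by simp [rer, h]

lemma pat_rer (x : ι1 × J → Option β) (w : ι1 → β) (i : ι1) : pat (rer x w) i = pat x i := by
  funext j
  by_cases h : sel (pat x i) = some j
  · have h1 : ¬ pat x i j := sel_some h
    have h2 : ¬ pat (rer x w) i j := by
      unfold pat
      rw [rer_pos h]
      simp
    simp [h1, h2]
  · unfold pat
    rw [rer_neg h]

lemma rer_rer (x : ι1 × J → Option β) (w : ι1 → β) : rer (rer x w) (old x w) = x := by
  funext p
  obtain ⟨i, j⟩ := p
  have hp := pat_rer x w i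
  by_cases h : sel (pat x i) = some j
  · have h2 : sel (pat (rer x w) i) = some j := by rw [hp]; exact h
    rw [rer_pos h2]
    simp only [old, h, Option.elim_some]
    have h4 : x (i, j) ≠ none := sel_some (s := pat x i) h
    obtain ⟨c, hc⟩ := Option.ne_none_iff_exists'.mp h4
    rw [hc]
    rfl
  · have h2 : ¬ sel (pat (rer x w) i) = some j := by rw [hp]; exact h
    rw [rer_neg h2, rer_neg h]

lemma old_rer (x : ι1 × J → Option β) (w : ι1 → β) : old (rer x w) (old x w) = w := by
  funext i
  have hp := pat_rer x w i
  unfold old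
  rw [hp]
  cases h : sel (pat x i) with
  | none => simp
  | some j =>
    simp only [Option.elim_some]
    rw [rer_pos h]
    rfl

/-- The swap as a permutation. -/
noncomputable def swapE : ((ι1 × J → Option β) × (ι1 → β)) ≃ ((ι1 × J → Option β) × (ι1 → β)) :=
  Function.Involutive.toPerm (fun p => (rer p.1 p.2, old p.1 p.2)) (by
    rintro ⟨x, w⟩
    simp only [rer_rer, old_rer])

lemma E_rer [Finite ι1] [Finite J] [Finite β] [Nonempty β] (f : (ι1 × J → Option β) → ℝ) :
    E f = E (fun x => E fun w => f (rer x w)) := by
  have h1 : E f = E (fun p : (ι1 × J → Option β) × (ι1 → β) => f p.1) := by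
    rw [E_prod]
    simp only [E_const]
  have h2 : E (fun x => E fun w => f (rer x w))
      = E (fun p : (ι1 × J → Option β) × (ι1 → β) => f (rer p.1 p.2)) := by
    rw [E_prod]
  rw [h1, h2, ← E_equiv swapE]
  rfl

end Rerandomise

/-- Dense insensitive sets contain subspaces. -/
lemma insens_subspace {β : Type} [Finite β] [Nonempty β] (hP : DHJ β) (η : Type) [Finite η]
    (γ : ℝ) (hγ : 0 < γ) (b : β) :
    ∃ (ι : Type) (_ : Finite ι), ∀ D : Set (ι → Option β), Insens b D → γ ≤ dens D →
      ∃ V : Subspace η (Option β) ι, ∀ x, V x ∈ D := by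
  obtain ⟨ι1, hι1, h1⟩ := multi hP η (γ / 2) (by positivity)
  obtain ⟨r, hr⟩ : ∃ r : ℕ, (Nat.card ι1 : ℝ) * (1 / 2 : ℝ) ^ r ≤ γ / 2 := by
    have h0 : Filter.Tendsto (fun r : ℕ => (Nat.card ι1 : ℝ) * (1 / 2 : ℝ) ^ r) Filter.atTop
        (nhds ((Nat.card ι1 : ℝ) * 0)) :=
      (tendsto_pow_atTop_nhds_zero_of_lt_one (by norm_num) (by norm_num)).const_mul _
    rw [mul_zero] at h0
    exact ((h0.eventually_lt_const (half_pos hγ)).exists).imp fun _ h => h.le
  refine ⟨ι1 × Fin r, inferInstance, fun D hD hdens => ?_⟩
  -- the bad words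
  have hbad : dens {x : ι1 × Fin r → Option β | ∃ i, ∀ j, x (i, j) = none} ≤ γ / 2 := by
    refine le_trans ?_ hr
    have hft := Fintype.ofFinite ι1
    have h2 : dens {x : ι1 × Fin r → Option β | ∃ i, ∀ j, x (i, j) = none}
        ≤ ∑ i : ι1, dens {x : ι1 × Fin r → Option β | ∀ j, x (i, j) = none} := by
      unfold dens
      rw [← E_finset_sum]
      apply E_mono
      intro x
      by_cases hx : ∃ i, ∀ j, x (i, j) = none
      · rw [ind_true (show x ∈ {x : ι1 × Fin r → Option β | ∃ i, ∀ j, x (i, j) = none} from hx)]
        obtain ⟨i, hi⟩ := hx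
        rw [← ind_true (show x ∈ {x : ι1 × Fin r → Option β | ∀ j, x (i, j) = none} from hi)]
        exact Finset.single_le_sum
          (f := fun i => ind (x ∈ {x : ι1 × Fin r → Option β | ∀ j, x (i, j) = none}))
          (fun t _ => ind_nonneg _) (Finset.mem_univ i)
      · rw [ind_false (show ¬ x ∈ {x : ι1 × Fin r → Option β | ∃ i, ∀ j, x (i, j) = none} from hx)]
        exact Finset.sum_nonneg fun t _ => ind_nonneg _
    refine le_trans h2 ?_
    have h3 : ∀ i : ι1, dens {x : ι1 × Fin r → Option β | ∀ j, x (i, j) = none}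
        ≤ (1 / 2 : ℝ) ^ r := by
      intro i
      have h4 : dens {x : ι1 × Fin r → Option β | ∀ j, x (i, j) = none}
          = dens ({fun _ => none} : Set (Fin r → Option β)) := by
        have h5 : E (fun x : ι1 → (Fin r → Option β) =>
            ind (x i ∈ ({fun _ => none} : Set (Fin r → Option β))))
            = dens ({fun _ => none} : Set (Fin r → Option β)) :=
          E_eval i (fun z : Fin r → Option β => ind (z ∈ ({fun _ => none} : Set _)))
        rw [← h5, ← E_equiv (Equiv.curry ι1 (Fin r) (Option β))]
        unfold dens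
        congr 1
        funext x
        congr 1
        simp only [Set.mem_ofPred_eq, Set.mem_singleton_iff, eq_iff_iff]
        constructor
        · intro h
          funext j
          exact h j
        · intro h j
          exact congrFun h j
      rw [h4, dens_singleton]
      have hβ : (2 : ℝ) ≤ Nat.card (Option β) := by
        have hft := Fintype.ofFinite β
        rw [Nat.card_eq_fintype_card, Fintype.card_option]
        have : 1 ≤ Fintype.card β := Fintype.card_pos
        have h' : 2 ≤ Fintype.card β + 1 := by omega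
        exact_mod_cast h'
      rw [Nat.card_fun, Nat.card_fin, one_div_pow]
      push_cast
      apply one_div_le_one_div_of_le (by positivity)
      exact pow_le_pow_left₀ (by norm_num) hβ r
    refine le_trans (Finset.sum_le_sum fun i _ => h3 i) ?_
    rw [Finset.sum_const, Finset.card_univ, nsmul_eq_mul, Nat.card_eq_fintype_card]
  -- a good word
  have hE : γ ≤ E (fun x : ι1 × Fin r → Option β => dens {w : ι1 → β | rer x w ∈ D}) := by
    have : dens D = E (fun x : ι1 × Fin r → Option β => dens {w : ι1 → β | rer x w ∈ D}) :=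
      E_rer _
    rw [← this]
    exact hdens
  have hE2 : γ / 2 ≤ E (fun x : ι1 × Fin r → Option β => dens {w : ι1 → β | rer x w ∈ D}
      - ind (x ∈ {x : ι1 × Fin r → Option β | ∃ i, ∀ j, x (i, j) = none})) := by
    rw [E_sub]
    unfold dens at hbad hE ⊢
    linarith
  obtain ⟨x, hx⟩ := exists_ge_E hE2
  have hgood : ¬ ∃ i, ∀ j, x (i, j) = none := by
    intro hcon
    rw [ind_true (show x ∈ {x : ι1 × Fin r → Option β | ∃ i, ∀ j, x (i, j) = none} from hcon)] at hx
    have := dens_le_one {w : ι1 → β | rer x w ∈ D}
    linarith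
  rw [ind_false (show ¬ x ∈ {x : ι1 × Fin r → Option β | ∃ i, ∀ j, x (i, j) = none} from hgood),
    sub_zero] at hx
  obtain ⟨V', hV'⟩ := h1 _ hx
  classical
  let V : Subspace η (Option β) (ι1 × Fin r) :=
    { idxFun := fun p => if sel (pat x p.1) = some p.2 then Sum.map some id (V'.idxFun p.1)
        else Sum.inl (x p)
      proper := by
        intro e
        obtain ⟨i, hi⟩ := V'.proper e
        have hex : ∃ j, ¬ pat x i j := by
          by_contra hcon
          push Not at hcon
          exact hgood ⟨i, hcon⟩
        obtain ⟨j, hj⟩ := sel_isSome hex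
        refine ⟨(i, j), ?_⟩
        simp only [hj, if_true, hi]
        rfl }
  refine ⟨V, fun z => ?_⟩
  refine hD (rer x (V' (fill b z))) (V z) ?_ (hV' (fill b z))
  funext p
  obtain ⟨i, j⟩ := p
  rw [fill, fill, Subspace.coe_apply]
  simp only [rer, V]
  by_cases h : sel (pat x i) = some j
  · simp only [h, if_true, Option.getD_some]
    rw [← fill_hat]
    rfl
  · simp [h]

end Pool.Agent.DHJ
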