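import Mathlib
import Pool.Agent.DHJ.Insens

set_option autoImplicit false

/-! Averaging over insensitive sets. -/

namespace Pool.Agent.DHJ

open Combinatorics

lemma subspace_injective {η α ι : Type} (V : Subspace η α ι) : Function.Injective (V : (η → α) → (ι → α)) := by
  intro x y h
  funext e
  obtain ⟨i, hi⟩ := V.proper e
  have := congrFun h i
  rw [Subspace.apply_inr hi, Subspace.apply_inr hi] at this
  exact this

lemma E_range {U X : Type} [Finite U] [Finite X] [Nonempty U] (g : U → X) (hg : Function.Injective g)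
    (F : X → ℝ) : E (fun x => ind (x ∈ Set.range g) * F x)
      = ((Nat.card U : ℝ) / (Nat.card X : ℝ)) * E (fun u => F (g u)) := by
  classical
  have := Fintype.ofFinite U
  have := Fintype.ofFinite X
  rw [E_eq, E_eq, Nat.card_eq_fintype_card, Nat.card_eq_fintype_card]
  have h1 : ∑ x, ind (x ∈ Set.range g) * F x = ∑ u, F (g u) := by
    rw [← Finset.sum_image (s := Finset.univ) (g := g) (f := F) (fun a _ b _ h => hg h)]
    symm
    rw [← Finset.sum_subset (Finset.subset_univ (Finset.univ.image g))]
    · apply Finset.sum_congr rfl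
      intro x hx
      rw [Finset.mem_image] at hx
      obtain ⟨u, -, hu⟩ := hx
      rw [ind_true ⟨u, hu⟩, one_mul]
    · intro x _ hx
      rw [ind_false, zero_mul]
      rintro ⟨u, hu⟩
      exact hx (Finset.mem_image.mpr ⟨u, Finset.mem_univ _, hu⟩)
  rw [h1]
  have h2 : (Fintype.card U : ℝ) ≠ 0 := by exact_mod_cast Fintype.card_ne_zero
  field_simp

/-- Averaging over an insensitive set. -/
lemma insens_avg {β : Type} [Finite β] [Nonempty β] (hP : DHJ β) (η : Type) [Finite η]
    (γ : ℝ) (hγ : 0 < γ) (b : β) (κ0 : Type) [Finite κ0] :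
    ∃ (ι : Type) (_ : Finite ι), Nat.card κ0 ≤ Nat.card ι ∧
      ∀ D : Set (ι → Option β), Insens b D → ∀ f : (ι → Option β) → ℝ, (∀ x, |f x| ≤ 1) →
      γ ≤ E (fun x => ind (x ∈ D) * f x) →
      ∃ W : Subspace η (Option β) ι, (∀ x, W x ∈ D) ∧ γ / 2 ≤ E (fun x => f (W x)) := by
  by_cases hγ1 : γ ≤ 1
  swap
  · refine ⟨κ0, inferInstance, le_rfl, fun D _ f hf h => ?_⟩
    exfalso
    have : E (fun x => ind (x ∈ D) * f x) ≤ 1 := by
      apply E_le_of
      intro x
      have h1 := (abs_le.mp (hf x)).2
      have h2 := ind_le_one (x ∈ D)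
      have h3 := ind_nonneg (x ∈ D)
      nlinarith
    linarith
  obtain ⟨ι0, hι0, h0⟩ := insens_subspace hP η (γ / 8 / 2) (by positivity) b
  have hne : Nonempty (Subspace η (Option β) ι0) := by
    obtain ⟨V, -⟩ := h0 Set.univ (fun _ _ _ _ => Set.mem_univ _) (by rw [dens_univ]; linarith)
    exact ⟨V⟩
  have hS : (1 : ℝ) ≤ Nat.card (Subspace η (Option β) ι0) := by exact_mod_cast Nat.card_pos
  -- the constants
  set c0 : ℝ := (Nat.card (η → Option β) : ℝ) / (Nat.card (ι0 → Option β) : ℝ) with hc0
  have hc0pos : 0 < c0 := by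
    apply div_pos
    · exact_mod_cast Nat.card_pos
    · exact_mod_cast Nat.card_pos
  have hc0le : c0 ≤ 1 := by
    rw [hc0, div_le_one (by exact_mod_cast Nat.card_pos)]
    obtain ⟨V⟩ := hne
    exact_mod_cast Nat.card_le_card_of_injective _ (subspace_injective V)
  set θ : ℝ := c0 * (γ / 8 / 2 / Nat.card (Subspace η (Option β) ι0)) with hθ
  have hθpos : 0 < θ := by positivity
  have hθle : θ ≤ 1 := by
    have h1 : γ / 8 / 2 / (Nat.card (Subspace η (Option β) ι0) : ℝ) ≤ 1 := by
      rw [div_le_one (by linarith)]
      linarith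
    calc θ ≤ 1 * 1 := mul_le_mul hc0le h1 (by positivity) zero_le_one
      _ = 1 := one_mul 1
  have claim : ∀ T : ℕ, ∃ (κ : Type) (_ : Finite κ), Nat.card κ0 ≤ Nat.card κ ∧
      ∀ D : Set (κ → Option β), Insens b D → ∀ f : (κ → Option β) → ℝ, (∀ x, |f x| ≤ 1) →
      (∀ W : Subspace η (Option β) κ, (∀ x, W x ∈ D) → E (fun x => f (W x)) ≤ γ / 2) →
      E (fun x => ind (x ∈ D) * f x) ≤ γ / 2 * dens D + γ / 8 + (1 - θ) ^ T * dens D := by
    intro T
    induction T with
    | zero =>
      refine ⟨κ0, inferInstance, le_rfl, fun D _ f hf _ => ?_⟩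
      have h1 : E (fun x => ind (x ∈ D) * f x) ≤ dens D := by
        apply E_mono
        intro x
        have h1 := (abs_le.mp (hf x)).2
        have h3 := ind_nonneg (x ∈ D)
        nlinarith
      have h2 := dens_nonneg D
      rw [pow_zero, one_mul]
      nlinarith
    | succ T ih =>
      obtain ⟨κ, hκ, hcard, ih⟩ := ih
      refine ⟨ι0 ⊕ κ, inferInstance, ?_, fun D hD f hf hW => ?_⟩
      · rw [Nat.card_sum]; omega
      have hpow : 0 ≤ (1 - θ) ^ T := pow_nonneg (by linarith) T
      have hpow' : 0 ≤ (1 - θ) ^ (T + 1) := pow_nonneg (by linarith) _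
      by_cases hsmall : dens D ≤ γ / 8
      · have h1 : E (fun x => ind (x ∈ D) * f x) ≤ dens D := by
          apply E_mono
          intro x
          have h1 := (abs_le.mp (hf x)).2
          have h3 := ind_nonneg (x ∈ D)
          nlinarith
        have h2 := dens_nonneg D
        have h3 := mul_nonneg hpow' h2
        nlinarith
      push Not at hsmall
      -- sections
      have hsec : dens D = E (fun z : κ → Option β =>
          dens {x : ι0 → Option β | Sum.elim x z ∈ D}) := by
        unfold dens
        rw [E_sum']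
        rfl
      have hm := markov (g := fun z : κ → Option β =>
          dens {x : ι0 → Option β | Sum.elim x z ∈ D}) (c := γ / 8) (by positivity)
          (fun y => dens_le_one _) (by rw [← hsec]; exact hsmall.le)
      have fill_elim : ∀ (x : ι0 → Option β) (z : κ → Option β),
          fill b (Sum.elim x z) = Sum.elim (fill b x) (fill b z) := by
        intro x z
        funext i
        cases i <;> rfl
      obtain ⟨V, hV⟩ := pigeonhole (T := Subspace η (Option β) ι0)
        (R := fun V (z : κ → Option β) => ∀ u, Sum.elim (V u) z ∈ D)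
        (fun z hz => h0 {x | Sum.elim x z ∈ D} (by
          intro x y hxy hx
          refine hD _ _ ?_ hx
          rw [fill_elim, fill_elim, hxy]) hz) hm
      set Z : Set (κ → Option β) := {z | ∀ u, Sum.elim (V u) z ∈ D} with hZ
      have hZins : Insens b Z := by
        intro z z' hzz hz u
        refine hD _ _ ?_ (hz u)
        rw [fill_elim, fill_elim, hzz]
      -- the two parts
      have hsplit : ∀ (x : ι0 → Option β) (z : κ → Option β), ind (Sum.elim x z ∈ D)
          = ind (x ∈ Set.range V) * ind (z ∈ Z)
            + ind (Sum.elim x z ∈ D ∧ ¬ (x ∈ Set.range V ∧ z ∈ Z)) := by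
        intro x z
        by_cases h1 : x ∈ Set.range V ∧ z ∈ Z
        · have h2 : Sum.elim x z ∈ D := by
            obtain ⟨⟨u, rfl⟩, hz⟩ := h1
            exact hz u
          rw [ind_true h2, ind_true h1.1, ind_true h1.2, ind_false (fun h => h.2 h1)]
          norm_num
        · have h3 : ind (x ∈ Set.range V) * ind (z ∈ Z) = 0 := by
            rw [not_and_or] at h1
            rcases h1 with h1 | h1
            · rw [ind_false h1, zero_mul]
            · rw [ind_false h1, mul_zero]
          rw [h3, zero_add]
          congr 1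
          rw [eq_iff_iff]
          exact ⟨fun h => ⟨h, h1⟩, fun h => h.1⟩
      have hVZ : ∀ F : (ι0 → Option β) → (κ → Option β) → ℝ,
          E (fun z : κ → Option β => E fun x : ι0 → Option β =>
            ind (x ∈ Set.range V) * ind (z ∈ Z) * F x z)
          = E (fun z : κ → Option β => ind (z ∈ Z) * (c0 * E (fun u => F (V u) z))) := by
        intro F
        congr 1
        funext z
        rw [← E_range _ (subspace_injective V) (fun x => F x z), ← E_mul]
        congr 1
        funext x
        ring
      -- density of `D`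
      have hd1 : dens D = c0 * dens Z + E (fun x : ι0 → Option β =>
          dens {z : κ → Option β | Sum.elim x z ∈ D ∧ ¬ (x ∈ Set.range V ∧ z ∈ Z)}) := by
        have e1 : dens D = E (fun z : κ → Option β => E fun x : ι0 → Option β =>
            (ind (x ∈ Set.range V) * ind (z ∈ Z) * 1
            + ind (Sum.elim x z ∈ D ∧ ¬ (x ∈ Set.range V ∧ z ∈ Z)))) := by
          unfold dens
          rw [E_sum']
          congr 1
          funext z
          congr 1
          funext x
          rw [hsplit x z, mul_one]
        rw [e1]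
        simp only [E_add]
        rw [hVZ (fun _ _ => 1)]
        congr 1
        · simp only [E_const, mul_one]
          rw [dens, ← E_mul]
          congr 1
          funext z
          ring
        · rw [E_comm]
          rfl
      -- the average
      have hd2 : E (fun y => ind (y ∈ D) * f y)
          = E (fun z : κ → Option β => ind (z ∈ Z) * (c0 * E (fun u => f (Sum.elim (V u) z))))
            + E (fun x : ι0 → Option β => E fun z : κ → Option β =>
              ind (z ∈ {z : κ → Option β | Sum.elim x z ∈ D ∧ ¬ (x ∈ Set.range V ∧ z ∈ Z)})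
                * f (Sum.elim x z)) := by
        rw [← hVZ (fun x z => f (Sum.elim x z)), E_comm (X := ι0 → Option β), ← E_add, E_sum']
        congr 1
        funext z
        rw [← E_add]
        congr 1
        funext x
        rw [hsplit x z, add_mul]
        rfl
      have hb1 : E (fun z : κ → Option β => ind (z ∈ Z) * (c0 * E (fun u => f (Sum.elim (V u) z))))
          ≤ c0 * (γ / 2) * dens Z := by
        rw [dens, ← E_mul]
        apply E_mono
        intro z
        by_cases hz : z ∈ Z
        · rw [ind_true hz, one_mul, mul_one]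
          apply mul_le_mul_of_nonneg_left _ hc0pos.le
          have := hW (inlS V z) (fun x => by rw [inlS_apply]; exact hz x)
          simp only [inlS_apply] at this
          exact this
        · rw [ind_false hz]
          simp
      have hb2 : E (fun x : ι0 → Option β => E fun z : κ → Option β =>
              ind (z ∈ {z : κ → Option β | Sum.elim x z ∈ D ∧ ¬ (x ∈ Set.range V ∧ z ∈ Z)})
                * f (Sum.elim x z))
          ≤ E (fun x : ι0 → Option β => (γ / 2 + (1 - θ) ^ T) *
              dens {z : κ → Option β | Sum.elim x z ∈ D ∧ ¬ (x ∈ Set.range V ∧ z ∈ Z)} + γ / 8) := by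
        apply E_mono
        intro x
        have := ih {z : κ → Option β | Sum.elim x z ∈ D ∧ ¬ (x ∈ Set.range V ∧ z ∈ Z)} (by
          intro z z' hzz hz
          refine ⟨hD _ _ ?_ hz.1, ?_⟩
          · rw [fill_elim, fill_elim, hzz]
          · rintro ⟨h1, h2⟩
            exact hz.2 ⟨h1, hZins z' z hzz.symm h2⟩) (fun z => f (Sum.elim x z)) (fun z => hf _) (by
          intro W hWD
          have := hW (inrS x W) (fun y => by rw [inrS_apply]; exact (hWD y).1)
          simp only [inrS_apply] at this
          exact this)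
        linarith
      rw [E_add, E_mul, E_const] at hb2
      have hZd : θ ≤ c0 * dens Z := by
        rw [hθ]
        exact mul_le_mul_of_nonneg_left hV hc0pos.le
      have hDle := dens_le_one D
      have hD0 := dens_nonneg D
      rw [hd2]
      set R := E (fun x : ι0 → Option β =>
          dens {z : κ → Option β | Sum.elim x z ∈ D ∧ ¬ (x ∈ Set.range V ∧ z ∈ Z)}) with hR
      have hR' : R = dens D - c0 * dens Z := by linarith
      have e3 : (1 - θ) ^ T * R ≤ (1 - θ) ^ (T + 1) * dens D := by
        rw [pow_succ, mul_assoc]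
        apply mul_le_mul_of_nonneg_left _ hpow
        rw [hR']
        nlinarith
      have e4 : (γ / 2 + (1 - θ) ^ T) * R = γ / 2 * R + (1 - θ) ^ T * R := by ring
      have e5 : γ / 2 * R = γ / 2 * dens D - c0 * (γ / 2) * dens Z := by rw [hR']; ring
      linarith
  obtain ⟨T, hT⟩ : ∃ T : ℕ, (1 - θ) ^ T < γ / 8 :=
    exists_pow_lt_of_lt_one (by positivity) (by linarith)
  obtain ⟨κ, hκ, hcard, hclaim⟩ := claim T
  refine ⟨κ, hκ, hcard, fun D hD f hf h => ?_⟩
  by_contra hcon
  push Not at hcon
  have h1 := hclaim D hD f hf (fun W hW => (hcon W hW).le)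
  have h2 := dens_le_one D
  have h3 := dens_nonneg D
  have h4 : 0 ≤ (1 - θ) ^ T := pow_nonneg (by linarith) T
  nlinarith

/-- Averaging over the complement of an intersection of insensitive sets. -/
lemma compl_avg {β : Type} [Finite β] [Nonempty β] (hP : DHJ β) (s : Finset β) :
    ∀ (η : Type) [Finite η] (γ : ℝ), 0 < γ → ∀ N : ℕ,
    ∃ (ι : Type) (_ : Finite ι), N ≤ Nat.card ι ∧
      ∀ C : β → Set (ι → Option β), (∀ b, Insens b (C b)) →
      ∀ f : (ι → Option β) → ℝ, (∀ x, |f x| ≤ 1) →
      γ ≤ E (fun x => ind (¬ ∀ b ∈ s, x ∈ C b) * f x) →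
      ∃ W : Subspace η (Option β) ι, 0 ≤ E (fun x => f (W x)) := by
  classical
  induction s using Finset.induction_on with
  | empty =>
    intro η _ γ hγ N
    refine ⟨Fin N, inferInstance, by simp, fun C _ f _ h => ?_⟩
    exfalso
    have : E (fun x : Fin N → Option β => ind (¬ ∀ b ∈ (∅ : Finset β), x ∈ C b) * f x) = 0 := by
      have h0 : (fun x : Fin N → Option β => ind (¬ ∀ b ∈ (∅ : Finset β), x ∈ C b) * f x)
          = fun x => (0 : ℝ) * 0 := by
        funext x
        rw [ind_false (by simp)]
        simp
      rw [h0, E_mul, zero_mul]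
    linarith
  | insert b s hb ih =>
    intro η _ γ hγ N
    obtain ⟨ι1, hι1, -, h1⟩ := ih η (γ / 2 / 2) (by positivity) 0
    obtain ⟨ι, hι, hcard, h2⟩ := insens_avg hP (ι1 ⊕ η) (γ / 2) (by positivity) b (Fin N)
    refine ⟨ι, hι, by simpa using hcard, fun C hC f hf h => ?_⟩
    have hsplit : ∀ x : ι → Option β, ind (¬ ∀ b' ∈ insert b s, x ∈ C b') * f x
        = ind (x ∈ (C b)ᶜ) * f x
          + ind (x ∈ C b) * (ind (¬ ∀ b' ∈ s, x ∈ C b') * f x) := by
      intro x
      by_cases hx : x ∈ C b
      · rw [ind_false (show ¬ x ∈ (C b)ᶜ from fun h => h hx), ind_true hx, zero_mul, zero_add,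
          one_mul]
        congr 2
        rw [eq_iff_iff]
        simp [hx]
      · rw [ind_true (show x ∈ (C b)ᶜ from hx), ind_false hx, zero_mul, add_zero]
        rw [ind_true]
        intro hall
        exact hx (hall b (Finset.mem_insert_self b s))
    have hE : γ ≤ E (fun x : ι → Option β => ind (x ∈ (C b)ᶜ) * f x)
        + E (fun x : ι → Option β => ind (x ∈ C b) * (ind (¬ ∀ b' ∈ s, x ∈ C b') * f x)) := by
      rw [← E_add]
      refine h.trans (le_of_eq ?_)
      congr 1
      funext x
      exact hsplit x
    by_cases hcase : γ / 2 ≤ E (fun x : ι → Option β => ind (x ∈ (C b)ᶜ) * f x)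
    · obtain ⟨W, -, hW⟩ := h2 (C b)ᶜ (hC b).compl f hf hcase
      rw [E_sum] at hW
      obtain ⟨z, hz⟩ := exists_ge_E hW
      refine ⟨comp W (inrS z (idS η (Option β))), ?_⟩
      refine le_trans (by positivity : (0 : ℝ) ≤ γ / 2 / 2) (hz.trans (le_of_eq ?_))
      congr 1
      funext x
      rw [comp_apply, inrS_apply, idS_apply]
    · push Not at hcase
      have hcase2 : γ / 2 ≤ E (fun x : ι → Option β => ind (x ∈ C b) *
          (ind (¬ ∀ b' ∈ s, x ∈ C b') * f x)) := by linarith
      obtain ⟨W, -, hW⟩ := h2 (C b) (hC b) (fun x => ind (¬ ∀ b' ∈ s, x ∈ C b') * f x) (by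
        intro x
        rw [abs_mul]
        have e1 : |ind (¬ ∀ b' ∈ s, x ∈ C b')| ≤ 1 := by
          rw [abs_of_nonneg (ind_nonneg _)]
          exact ind_le_one _
        calc _ ≤ 1 * 1 := mul_le_mul e1 (hf x) (abs_nonneg _) zero_le_one
          _ = 1 := one_mul 1) hcase2
      rw [E_sum'] at hW
      obtain ⟨z, hz⟩ := exists_ge_E hW
      obtain ⟨W', hW'⟩ := h1 (fun b' => {x | comp W (inlS (idS ι1 (Option β)) z) x ∈ C b'})
        (fun b' => (hC b').preimage _) (fun x => f (comp W (inlS (idS ι1 (Option β)) z) x))
        (fun x => hf _) (by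
          refine hz.trans (le_of_eq ?_)
          congr 1
          funext x
          have : W (Sum.elim x z) = comp W (inlS (idS ι1 (Option β)) z) x := by
            rw [comp_apply, inlS_apply, idS_apply]
          rw [this]
          rfl)
      refine ⟨comp (comp W (inlS (idS ι1 (Option β)) z)) W', ?_⟩
      refine hW'.trans (le_of_eq ?_)
      congr 1
      funext x
      rw [comp_apply (comp W _) W']

end Pool.Agent.DHJ
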