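import Mathlib
import Pool.Agent.DHJ.Basic

set_option autoImplicit false

/-! A Graham-Rothschild type statement for lines. -/

namespace Pool.Agent.DHJ

open Combinatorics

lemma hat_apply {η β ι : Type} (V : Subspace η β ι) (x : η → Option β) (i : ι) :
    hat V x i = Sum.elim some x (V.idxFun i) := by
  rw [Subspace.coe_apply]
  simp only [hat]
  cases V.idxFun i <;> rfl

lemma stepA {β : Type} [Finite β] [Nonempty β] (M : Type) [Finite M] :
    ∀ (κ : Type) [Finite κ], ∃ (ι : Type) (_ : Finite ι), ∀ c : (ι → Option β) → κ,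
      ∃ V : Subspace M β ι, ∀ x y : M → Option β, (∀ j, x j = none ↔ y j = none) →
        c (hat V x) = c (hat V y) := by
  induction M using Finite.induction_empty_option with
  | of_equiv e ih =>
    intro κ _
    obtain ⟨ι, hι, h⟩ := ih κ
    refine ⟨ι, hι, fun c => ?_⟩
    obtain ⟨V, hV⟩ := h c
    refine ⟨V.reindex e (Equiv.refl _) (Equiv.refl _), fun x y hxy => ?_⟩
    have key : ∀ x, hat (V.reindex e (Equiv.refl _) (Equiv.refl _)) x = hat V (x ∘ e) := by
      intro x
      funext i
      rw [hat_apply, hat_apply]
      simp only [Subspace.reindex, Equiv.refl_symm, Equiv.coe_refl, id_eq]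
      cases V.idxFun i <;> rfl
    rw [key, key]
    exact hV _ _ (fun j => hxy (e j))
  | h_empty =>
    intro κ _
    refine ⟨PEmpty, inferInstance, fun c => ⟨idS PEmpty β, fun x y _ => ?_⟩⟩
    congr 1
    exact Subsingleton.elim _ _
  | @h_option M _ ih =>
    intro κ _
    obtain ⟨ι', hι', h'⟩ := ih (κ × κ)
    obtain ⟨ι0, hι0, h0⟩ := Line.exists_mono_in_high_dimension β ((ι' → Option β) → κ)
    refine ⟨ι0 ⊕ ι', inferInstance, fun c => ?_⟩
    obtain ⟨L, g, hg⟩ := h0 (fun u z => c (Sum.elim (fun i => some (u i)) z))
    obtain ⟨V, hV⟩ := h' (fun z => (c (Sum.elim L.idxFun z), g z))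
    refine ⟨lineProd L V, ?_⟩
    have key : ∀ x : Option M → Option β, c (hat (lineProd L V) x)
        = (x none).elim (c (Sum.elim L.idxFun (hat V (fun j => x (some j)))))
            (fun _ => g (hat V (fun j => x (some j)))) := by
      intro x
      have e1 : hat (lineProd L V) x
          = Sum.elim (fun i => (L.idxFun i).elim (x none) some) (hat V (fun j => x (some j))) := by
        funext i
        rw [hat_apply]
        cases i with
        | inl i =>
          simp only [lineProd, Sum.elim_inl]
          cases L.idxFun i <;> rfl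
        | inr i =>
          simp only [lineProd, Sum.elim_inr]
          rw [hat_apply]
          cases V.idxFun i <;> rfl
      rw [e1]
      cases hx : x none with
      | none =>
        simp only [Option.elim_none]
        congr 2
        funext i
        cases L.idxFun i <;> rfl
      | some b =>
        simp only [Option.elim_some]
        have := congrFun (hg b) (hat V (fun j => x (some j)))
        rw [← this]
        congr 2
        funext i
        rw [Line.coe_apply]
        cases L.idxFun i <;> rfl
    intro x y hxy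
    rw [key, key]
    have h1 := hV (fun j => x (some j)) (fun j => y (some j)) (fun j => hxy (some j))
    have h2 := congrArg Prod.fst h1
    have h3 := congrArg Prod.snd h1
    simp only at h2 h3
    cases hx : x none with
    | none =>
      have hy : y none = none := (hxy none).mp hx
      rw [hy, Option.elim_none, Option.elim_none]
      exact h2
    | some b =>
      have hy : ∃ b', y none = some b' := by
        apply Option.ne_none_iff_exists'.mp
        intro h
        rw [(hxy none).mpr h] at hx
        exact absurd hx (by simp)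
      obtain ⟨b', hb'⟩ := hy
      rw [hb', Option.elim_some, Option.elim_some]
      exact h3

/-- `V` is unicoloured for lines. -/
def AllLines {η β ι : Type} (c : (ι → Option β) → Prop) (V : Subspace η β ι) : Prop :=
  ∀ x : η → Option β, (∃ j, x j = none) → c (hat V x)

lemma helper {ι1 ι : Type} (c : (ι → Option Unit) → Prop) (G : Subspace (Option ι1) Unit ι)
    (h0 : ∀ x : Option ι1 → Option Unit, x none = none → c (hat G x)) (p q : ℕ)
    (h1 : ∀ c1 : (ι1 → Option Unit) → Prop, (∃ V : Subspace (Fin p) Unit ι1, AllLines c1 V) ∨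
      (∃ V : Subspace (Fin q) Unit ι1, AllLines (fun x => ¬ c1 x) V)) :
    (∃ V : Subspace (Fin (p + 1)) Unit ι, AllLines c V) ∨
      (∃ V : Subspace (Fin q) Unit ι, AllLines (fun x => ¬ c x) V) := by
  rcases h1 (fun z => c (hat G (fun o => o.elim (some ()) z))) with ⟨V, hV⟩ | ⟨V, hV⟩
  · left
    let H : Subspace (Fin (p + 1)) Unit (Option ι1) :=
      { idxFun := fun o => o.elim (Sum.inr 0) (fun j => Sum.map id Fin.succ (V.idxFun j))
        proper := by
          intro e
          refine Fin.cases ?_ (fun e => ?_) e
          · exact ⟨none, rfl⟩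
          · obtain ⟨j, hj⟩ := V.proper e
            exact ⟨some j, by simp [hj]⟩ }
    have hH : ∀ x : Fin (p + 1) → Option Unit,
        hat H x = fun o => o.elim (x 0) (hat V (fun e => x e.succ)) := by
      intro x
      funext o
      rw [hat_apply]
      cases o with
      | none => rfl
      | some j =>
        simp only [H, Option.elim_some]
        rw [hat_apply]
        cases V.idxFun j <;> rfl
    refine ⟨comp G H, ?_⟩
    rintro x ⟨j, hj⟩
    rw [hat_comp, comp_apply, hH]
    cases hx : x 0 with
    | none =>
      apply h0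
      simp
    | some u =>
      have hu : (some u : Option Unit) = some () := rfl
      rw [hu]
      refine hV (fun e => x e.succ) ?_
      have hj0 : j ≠ 0 := by
        intro h
        rw [h, hx] at hj
        exact absurd hj (by simp)
      exact ⟨j.pred hj0, by rw [Fin.succ_pred]; exact hj⟩
  · right
    let H : Subspace (Fin q) Unit (Option ι1) :=
      { idxFun := fun o => o.elim (Sum.inl ()) (fun j => V.idxFun j)
        proper := by
          intro e
          obtain ⟨j, hj⟩ := V.proper e
          exact ⟨some j, by simp [hj]⟩ }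
    have hH : ∀ x : Fin q → Option Unit,
        hat H x = fun o => o.elim (some ()) (hat V x) := by
      intro x
      funext o
      rw [hat_apply]
      cases o with
      | none => rfl
      | some j =>
        simp only [H, Option.elim_some]
        rw [hat_apply]
    refine ⟨comp G H, ?_⟩
    intro x hx
    rw [hat_comp, comp_apply, hH]
    exact hV x hx

/-- From a subspace over `Option Unit` to one over `Unit`. -/
def grp {K ι1 ι : Type} (F : Subspace (Option K) (Option Unit) ι) (r : K → Option ι1)
    (hr : ∀ j, ∃ k, r k = some j) : Subspace (Option ι1) Unit ι where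
  idxFun i := Sum.elim (fun a => a.elim (Sum.inr none) Sum.inl)
    (fun o => o.elim (Sum.inr none) (fun k => (r k).elim (Sum.inl ()) (fun j => Sum.inr (some j))))
    (F.idxFun i)
  proper o := by
    cases o with
    | none =>
      obtain ⟨i, hi⟩ := F.proper none
      exact ⟨i, by simp [hi]⟩
    | some j =>
      obtain ⟨k, hk⟩ := hr j
      obtain ⟨i, hi⟩ := F.proper (some k)
      exact ⟨i, by simp [hi, hk]⟩

lemma grp_apply {K ι1 ι : Type} (F : Subspace (Option K) (Option Unit) ι) (r : K → Option ι1)
    (hr : ∀ j, ∃ k, r k = some j) (x : Option ι1 → Option Unit) (hx : x none = none) :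
    hat (grp F r hr) x
      = F (fun o => o.elim none (fun k => (r k).elim (some ()) (fun j => x (some j)))) := by
  funext i
  rw [hat_apply, Subspace.coe_apply]
  simp only [grp]
  cases F.idxFun i with
  | inl a =>
    cases a with
    | none => simpa using hx
    | some u => rfl
  | inr o =>
    cases o with
    | none => simpa using hx
    | some k =>
      simp only [Sum.elim_inr, Option.elim_some]
      cases r k <;> rfl

lemma stepB (n : ℕ) : ∀ p q : ℕ, p + q = n → ∃ (ι : Type) (_ : Finite ι),
    ∀ c : (ι → Option Unit) → Prop, (∃ V : Subspace (Fin p) Unit ι, AllLines c V) ∨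
      (∃ V : Subspace (Fin q) Unit ι, AllLines (fun x => ¬ c x) V) := by
  induction n with
  | zero =>
    intro p q hpq
    have hp : p = 0 := by omega
    subst hp
    refine ⟨PEmpty, inferInstance, fun c => Or.inl ⟨⟨fun _ => Sum.inl (), fun e => e.elim0⟩, ?_⟩⟩
    rintro x ⟨j, -⟩
    exact j.elim0
  | succ n ih =>
    intro p q hpq
    rcases p with _ | p
    · refine ⟨PEmpty, inferInstance, fun c => Or.inl ⟨⟨fun _ => Sum.inl (), fun e => e.elim0⟩, ?_⟩⟩
      rintro x ⟨j, -⟩
      exact j.elim0
    rcases q with _ | q
    · refine ⟨PEmpty, inferInstance, fun c => Or.inr ⟨⟨fun _ => Sum.inl (), fun e => e.elim0⟩, ?_⟩⟩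
      rintro x ⟨j, -⟩
      exact j.elim0
    obtain ⟨ι1, hι1, h1⟩ := ih p (q + 1) (by omega)
    obtain ⟨ι2, hι2, h2⟩ := ih (p + 1) q (by omega)
    obtain ⟨ι, hι, h⟩ := Subspace.exists_mono_in_high_dimension (Option Unit) Prop
      (Option (ι1 ⊕ ι2))
    refine ⟨ι, inferInstance, fun c => ?_⟩
    obtain ⟨F, c0, hF⟩ := h c
    by_cases hc0 : c0
    · refine helper c (grp F (Sum.elim some (fun _ => none)) (fun j => ⟨Sum.inl j, rfl⟩)) ?_ p
        (q + 1) h1
      intro x hx
      rw [grp_apply F _ _ x hx, hF]
      exact hc0
    · have := helper (fun w => ¬ c w)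
        (grp F (Sum.elim (fun _ => none) some) (fun j => ⟨Sum.inr j, rfl⟩)) (by
          intro x hx
          rw [grp_apply F _ _ x hx, hF]
          exact hc0) q (p + 1) (fun c1 => by
          rcases h2 (fun z => ¬ c1 z) with ⟨V, hV⟩ | ⟨V, hV⟩
          · exact Or.inr ⟨V, hV⟩
          · exact Or.inl ⟨V, fun x hx => not_not.mp (hV x hx)⟩)
      rcases this with ⟨V, hV⟩ | ⟨V, hV⟩
      · exact Or.inr ⟨V, hV⟩
      · exact Or.inl ⟨V, fun x hx => not_not.mp (hV x hx)⟩

/-- Change of alphabet and of dimension. -/
def toBeta {n : ℕ} {η β M : Type} (b : β) (e : Fin n ≃ η) (V : Subspace (Fin n) Unit M) :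
    Subspace η β M where
  idxFun j := Sum.map (fun _ => b) e (V.idxFun j)
  proper o := by
    obtain ⟨i, hi⟩ := V.proper (e.symm o)
    exact ⟨i, by simp [hi]⟩

/-- The Graham-Rothschild theorem for lines and two colours. -/
lemma gr (β : Type) [Finite β] [Nonempty β] (η : Type) [Finite η] :
    ∃ (ι : Type) (_ : Finite ι), ∀ c : (ι → Option β) → Prop, ∃ V : Subspace η β ι,
      AllLines c V ∨ AllLines (fun x => ¬ c x) V := by
  obtain ⟨M, hM, hB⟩ := stepB _ (Nat.card η) (Nat.card η) rfl
  obtain ⟨ι, hι, hA⟩ := stepA (β := β) M Prop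
  obtain ⟨b⟩ : Nonempty β := inferInstance
  refine ⟨ι, hι, fun c => ?_⟩
  obtain ⟨VA, hVA⟩ := hA c
  let e : Fin (Nat.card η) ≃ η := (Finite.equivFin η).symm
  -- the key identity
  have key : ∀ (VB : Subspace (Fin (Nat.card η)) Unit M) (x : η → Option β),
      c (hat (comp VA (toBeta b e VB)) x)
        = c (hat VA (fun j => (hat VB (fun i => (x (e i)).map fun _ => ()) j).map fun _ => b)) := by
    intro VB x
    rw [hat_comp, comp_apply]
    apply hVA
    intro j
    rw [Option.map_eq_none_iff, hat_apply, hat_apply]
    simp only [toBeta]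
    cases VB.idxFun j with
    | inl u => simp
    | inr i => simp
  rcases hB (fun s => c (hat VA (fun j => (s j).map fun _ => b))) with ⟨VB, hVB⟩ | ⟨VB, hVB⟩
  · refine ⟨comp VA (toBeta b e VB), Or.inl ?_⟩
    rintro x ⟨j, hj⟩
    rw [key]
    exact hVB _ ⟨e.symm j, by simp [hj]⟩
  · refine ⟨comp VA (toBeta b e VB), Or.inr ?_⟩
    rintro x ⟨j, hj⟩
    show ¬ c _
    rw [key]
    exact hVB _ ⟨e.symm j, by simp [hj]⟩

end Pool.Agent.DHJ
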