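import Mathlib
import Pool.Agent.DHJ.Avg
import Pool.Agent.DHJ.GR

set_option autoImplicit false

/-! The density Hales-Jewett theorem. -/

namespace Pool.Agent.DHJ

open Combinatorics

lemma le_card_mul_E {X : Type} [Finite X] {f : X → ℝ} (hf : ∀ x, 0 ≤ f x) (x : X) :
    f x ≤ (Nat.card X : ℝ) * E f := by
  have := Fintype.ofFinite X
  have : Nonempty X := ⟨x⟩
  rw [E_eq, Nat.card_eq_fintype_card]
  have hpos : (0 : ℝ) < Fintype.card X := by exact_mod_cast Fintype.card_pos
  rw [mul_div_cancel₀ _ hpos.ne']
  exact Finset.single_le_sum (fun t _ => hf t) (Finset.mem_univ x)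

lemma dens_noNone {β L : Type} [Finite β] [Nonempty β] [Finite L] :
    dens {x : L → Option β | ∀ j, x j ≠ none}
      = ((Nat.card β : ℝ) / (Nat.card β + 1 : ℝ)) ^ Nat.card L := by
  have hinj : Function.Injective (fun (u : L → β) (j : L) => some (u j)) := by
    intro u v h
    funext j
    exact Option.some_injective _ (congrFun h j)
  have h1 := E_range (fun (u : L → β) (j : L) => some (u j)) hinj (fun _ => 1)
  rw [E_const, mul_one] at h1
  have h2 : dens {x : L → Option β | ∀ j, x j ≠ none}
      = E (fun x => ind (x ∈ Set.range (fun (u : L → β) (j : L) => some (u j))) * 1) := by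
    unfold dens
    congr 1
    funext x
    rw [mul_one]
    congr 1
    rw [eq_iff_iff]
    constructor
    · intro hx
      have : ∀ j, ∃ b, x j = some b := fun j => Option.ne_none_iff_exists'.mp (hx j)
      choose u hu using this
      exact ⟨u, funext fun j => (hu j).symm⟩
    · rintro ⟨u, rfl⟩ j
      simp
  rw [h2, h1]
  have := Fintype.ofFinite β
  have := Fintype.ofFinite L
  rw [Nat.card_fun, Nat.card_fun, Nat.card_eq_fintype_card (α := Option β), Fintype.card_option,
    Nat.card_eq_fintype_card (α := β)]
  push_cast
  rw [div_pow]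

lemma coordS_idx {η α ι : Type} (e : η ↪ ι) (a : α) (j : η) :
    (coordS e a).idxFun (e j) = Sum.inr j := by
  have h : ∃ j', e j' = e j := ⟨j, rfl⟩
  simp only [coordS]
  rw [dif_pos h]
  congr 1
  exact e.injective h.choose_spec

/-- The density increment. -/
lemma increment {β : Type} [Finite β] [Nonempty β] (hP : DHJ β) (δ : ℝ) (hδ : 0 < δ)
    (hδ1 : δ ≤ 1) : ∃ γ : ℝ, 0 < γ ∧ ∀ (η : Type) [Finite η], ∃ (ι : Type) (_ : Finite ι),
      ∀ A : Set (ι → Option β), (¬ ∃ l : Line (Option β) ι, ∀ a, l a ∈ A) → δ ≤ dens A →
      ∃ W : Subspace η (Option β) ι, dens A + γ ≤ dens {x | W x ∈ A} := by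
  obtain ⟨ι1, hι1, h1⟩ := hP (δ / 4) (by positivity)
  have hne : Nonempty (Line β ι1) := by
    obtain ⟨l, -⟩ := h1 Set.univ (by rw [dens_univ]; linarith)
    exact ⟨l⟩
  have hNL : (1 : ℝ) ≤ Nat.card (Line β ι1) := by exact_mod_cast Nat.card_pos
  set θ : ℝ := δ / 4 / Nat.card (Line β ι1) with hθ
  have hθpos : 0 < θ := by positivity
  have hθle : θ ≤ 1 := by
    rw [hθ, div_le_one (by linarith)]
    linarith
  refine ⟨δ * θ / 8, by positivity, ?_⟩
  intro η _
  have hδθ : 0 < δ * θ := mul_pos hδ hθpos
  have hδθ1 : δ * θ ≤ 1 := by nlinarith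
  -- the large dimension
  obtain ⟨N0, hN0⟩ : ∃ N0 : ℕ, ((Nat.card β : ℝ) / (Nat.card β + 1 : ℝ)) ^ N0 < δ * θ / 16 := by
    apply exists_pow_lt_of_lt_one (by positivity)
    rw [div_lt_one (by positivity)]
    linarith
  obtain ⟨L, hL, hLcard, h4⟩ := compl_avg hP (@Finset.univ β (Fintype.ofFinite β)) η (δ * θ / 8)
    (by positivity) (max N0 (Nat.card ι1))
  have hν : dens {x : L → Option β | ∀ j, x j ≠ none} ≤ δ * θ / 16 := by
    rw [dens_noNone]
    refine le_trans ?_ hN0.le
    apply pow_le_pow_of_le_one (by positivity) _ ((le_max_left _ _).trans hLcard)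
    rw [div_le_one (by positivity)]
    linarith
  obtain ⟨e⟩ : Nonempty (ι1 ↪ L) := by
    have f1 := Fintype.ofFinite ι1
    have f2 := Fintype.ofFinite L
    apply Function.Embedding.nonempty_of_card_le
    rw [← Nat.card_eq_fintype_card, ← Nat.card_eq_fintype_card]
    exact (le_max_right _ _).trans hLcard
  obtain ⟨ιm, hιm, hgr⟩ := gr β L
  have hK : (1 : ℝ) ≤ Nat.card (ιm → Option β) := by exact_mod_cast Nat.card_pos
  set ϱ : ℝ := δ * θ / 16 / Nat.card (ιm → Option β) with hϱ
  have hϱpos : 0 < ϱ := by positivity
  have hKϱ : (Nat.card (ιm → Option β) : ℝ) * ϱ = δ * θ / 16 := by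
    rw [hϱ]
    field_simp
  have claim : ∀ j : ℕ, ∃ (ι : Type) (_ : Finite ι),
      ∀ A : Set (ι → Option β), (¬ ∃ l : Line (Option β) ι, ∀ a, l a ∈ A) → δ ≤ dens A →
      1 < dens A + j * ϱ →
      ∃ W : Subspace η (Option β) ι, dens A + δ * θ / 8 ≤ dens {x | W x ∈ A} := by
    intro j
    induction j with
    | zero =>
      refine ⟨PEmpty, inferInstance, fun A _ _ h => ?_⟩
      have := dens_le_one A
      simp at h
      linarith
    | succ j ih =>
      obtain ⟨ιj, hιj, ih⟩ := ih
      refine ⟨ιm ⊕ ιj, inferInstance, fun A hA hdens hj => ?_⟩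
      set δ0 := dens A with hδ0
      have hδ01 : δ0 ≤ 1 := dens_le_one A
      have hEa : δ0 = E (fun x : ιm → Option β => dens {y : ιj → Option β | Sum.elim x y ∈ A}) := by
        rw [hδ0]
        unfold dens
        rw [E_sum]
        rfl
      by_cases hcase : ∃ x : ιm → Option β,
          δ0 + ϱ ≤ dens {y : ιj → Option β | Sum.elim x y ∈ A}
      · obtain ⟨x, hx⟩ := hcase
        obtain ⟨W, hW⟩ := ih {y : ιj → Option β | Sum.elim x y ∈ A} (by
            rintro ⟨l, hl⟩
            apply hA
            refine ⟨compLine (inrS x (idS ιj (Option β))) l, fun a => ?_⟩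
            rw [compLine_apply, inrS_apply, idS_apply]
            exact hl a) (by linarith) (by
            push_cast at hj
            linarith)
        refine ⟨inrS x W, ?_⟩
        have : {z | inrS x W z ∈ A} = {z | W z ∈ {y : ιj → Option β | Sum.elim x y ∈ A}} := by
          ext z
          show inrS x W z ∈ A ↔ Sum.elim x (W z) ∈ A
          rw [inrS_apply]
        rw [this]
        linarith
      push Not at hcase
      -- all sections are nearly as dense as `A`
      have hsec : ∀ x : ιm → Option β,
          δ0 - δ * θ / 16 ≤ dens {y : ιj → Option β | Sum.elim x y ∈ A} := by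
        intro x
        have h2 := le_card_mul_E (f := fun x : ιm → Option β =>
          (δ0 + ϱ) - dens {y : ιj → Option β | Sum.elim x y ∈ A})
          (fun x => by linarith [hcase x]) x
        rw [E_sub, E_const, ← hEa, show δ0 + ϱ - δ0 = ϱ by ring, hKϱ] at h2
        linarith
      obtain ⟨V, hV⟩ := hgr (fun x => θ ≤ dens {y : ιj → Option β |
        ∀ b, Sum.elim (fun i => some (fill b x i)) y ∈ A})
      rcases hV with hV | hV
      swap
      · -- all false
        exfalso
        obtain ⟨b0⟩ : Nonempty β := inferInstance
        have hB : δ / 2 ≤ E (fun y : ιj → Option β => dens {z : ι1 → β |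
            Sum.elim (fun i => some (comp V (coordS e b0) z i)) y ∈ A}) := by
          have : E (fun y : ιj → Option β => dens {z : ι1 → β |
            Sum.elim (fun i => some (comp V (coordS e b0) z i)) y ∈ A})
            = E (fun z : ι1 → β => dens {y : ιj → Option β |
            Sum.elim (fun i => some (comp V (coordS e b0) z i)) y ∈ A}) := by
            unfold dens
            rw [E_comm]
            rfl
          rw [this]
          apply le_E_of
          intro z
          have := hsec (fun i => some (comp V (coordS e b0) z i))
          nlinarith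
        have hm := markov (c := δ / 2) (by positivity) (fun y => dens_le_one _) hB
        obtain ⟨L0, hL0⟩ := pigeonhole (T := Line β ι1)
          (R := fun l (y : ιj → Option β) => ∀ b,
            Sum.elim (fun i => some (comp V (coordS e b0) (l b) i)) y ∈ A)
          (fun y hy => h1 {z : ι1 → β |
            Sum.elim (fun i => some (comp V (coordS e b0) z i)) y ∈ A} (by
              have hy' : δ / 2 / 2 ≤ dens {z : ι1 → β |
                Sum.elim (fun i => some (comp V (coordS e b0) z i)) y ∈ A} := hy
              linarith)) hm
        have hx0 : ∃ j, hat (coordS e b0) L0.idxFun j = none := by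
          obtain ⟨i, hi⟩ := L0.proper
          refine ⟨e i, ?_⟩
          rw [hat_apply, coordS_idx]
          exact hi
        apply hV _ hx0
        rw [← comp_apply, ← hat_comp]
        have hq : δ / 2 / 2 / (Nat.card (Line β ι1) : ℝ) = θ := by
          rw [hθ]; ring
        rw [hq] at hL0
        refine hL0.trans (le_of_eq ?_)
        congr 1
        ext y
        show (∀ b, Sum.elim (fun i => some (comp V (coordS e b0) (L0 b) i)) y ∈ A) ↔
          ∀ b, Sum.elim (fun i => some (fill b (hat (comp V (coordS e b0)) L0.idxFun) i)) y ∈ A
        have hf : ∀ b, fill b (hat (comp V (coordS e b0)) L0.idxFun)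
            = comp V (coordS e b0) (L0 b) := by
          intro b
          rw [fill_hat]
          rfl
        simp only [hf]
      · -- all true
        let Q : (L → Option β) → (ιj → Option β) → Prop := fun x y =>
          ∀ b, Sum.elim (fun i => some (fill b (hat V x) i)) y ∈ A
        let P : (L → Option β) → (ιj → Option β) → Prop := fun x y =>
          Sum.elim (hat V x) y ∈ A
        have hid : ∀ (x : L → Option β) (y : ιj → Option β),
            ind (P x y) - ind (∀ j, x j ≠ none) - (δ0 + δ * θ / 8)
              + (δ0 + δ * θ / 8) * ind (Q x y)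
            ≤ ind (¬ Q x y) * (ind (P x y) - (δ0 + δ * θ / 8)) := by
          intro x y
          by_cases hQ : Q x y
          · rw [ind_false (not_not.mpr hQ), ind_true hQ]
            by_cases hPp : P x y
            · have hnn : ∀ j, x j ≠ none := by
                by_contra hcon
                push Not at hcon
                obtain ⟨j, hj⟩ := hcon
                apply hA
                let l : Line (Option β) L := ⟨fun i => (x i).map some, ⟨j, by simp [hj]⟩⟩
                have hl : ∀ a i, l a i = ((x i).map some).getD a := fun a i => rfl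
                refine ⟨compLine (inlS (hat V) y) l, fun a => ?_⟩
                rw [compLine_apply, inlS_apply]
                cases a with
                | none =>
                  have : l none = x := by
                    funext i
                    rw [hl]
                    cases x i <;> rfl
                  rw [this]
                  exact hPp
                | some b =>
                  have : l (some b) = fun i => some (fill b x i) := by
                    funext i
                    rw [hl]
                    simp only [fill]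
                    cases x i <;> rfl
                  rw [this, hat_some, ← fill_hat]
                  exact hQ b
              rw [ind_true hPp, ind_true hnn]
              linarith
            · rw [ind_false hPp]
              have := ind_nonneg (∀ j, x j ≠ none)
              linarith
          · rw [ind_true hQ, ind_false hQ]
            have := ind_nonneg (∀ j, x j ≠ none)
            linarith
        have hEP : δ0 - δ * θ / 16 ≤ E (fun y => E fun x => ind (P x y)) := by
          rw [E_comm]
          apply le_E_of
          intro x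
          exact hsec (hat V x)
        have hEQ : θ / 2 ≤ E (fun y => E fun x => ind (Q x y)) := by
          rw [E_comm]
          have h5 : E (fun x : L → Option β => θ - θ * ind (∀ j, x j ≠ none))
              ≤ E (fun x => E fun y => ind (Q x y)) := by
            apply E_mono
            intro x
            by_cases hx : ∀ j, x j ≠ none
            · rw [ind_true hx, mul_one, sub_self]
              exact E_nonneg fun _ => ind_nonneg _
            · rw [ind_false hx, mul_zero, sub_zero]
              push Not at hx
              exact hV x hx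
          rw [E_sub, E_const, E_mul] at h5
          have h6 : E (fun x : L → Option β => ind (∀ j, x j ≠ none)) ≤ δ * θ / 16 := hν
          nlinarith
        have htot : δ * θ / 4 ≤ E (fun y => E fun x =>
            ind (¬ Q x y) * (ind (P x y) - (δ0 + δ * θ / 8))) := by
          have h7 : E (fun y => E fun x =>
              (ind (P x y) - ind (∀ j, x j ≠ none) - (δ0 + δ * θ / 8)
              + (δ0 + δ * θ / 8) * ind (Q x y))) ≤ E (fun y => E fun x =>
            ind (¬ Q x y) * (ind (P x y) - (δ0 + δ * θ / 8))) :=
            E_mono fun y => E_mono fun x => hid x y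
          simp only [E_add, E_sub, E_const, E_mul] at h7 ⊢
          have h6 : E (fun x : L → Option β => ind (∀ j, x j ≠ none)) ≤ δ * θ / 16 := hν
          have h8 : (δ0 + δ * θ / 8) * (θ / 2)
              ≤ (δ0 + δ * θ / 8) * E (fun y => E fun x => ind (Q x y)) :=
            mul_le_mul_of_nonneg_left hEQ (by linarith)
          nlinarith
        obtain ⟨y, hy⟩ := exists_ge_E htot
        obtain ⟨W, hW⟩ := h4 (fun b => {x | Sum.elim (fun i => some (fill b (hat V x) i)) y ∈ A})
          (by
            intro b x x' hxx hx
            have e1 : fill b (hat V x) = fill b (hat V x') := by rw [fill_hat, fill_hat, hxx]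
            have hx1 : Sum.elim (fun i => some (fill b (hat V x) i)) y ∈ A := hx
            show Sum.elim (fun i => some (fill b (hat V x') i)) y ∈ A
            rw [← e1]
            exact hx1)
          (fun x => (1 / 2) * (ind (P x y) - (δ0 + δ * θ / 8)))
          (by
            intro x
            have h9 := ind_nonneg (P x y)
            have h10 := ind_le_one (P x y)
            rw [abs_le]
            constructor <;> linarith)
          (by
            have e2 : E (fun x => ind (¬ ∀ b ∈ @Finset.univ β (Fintype.ofFinite β),
                x ∈ {x | Sum.elim (fun i => some (fill b (hat V x) i)) y ∈ A})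
                * ((1 / 2) * (ind (P x y) - (δ0 + δ * θ / 8))))
                = (1 / 2) * E (fun x => ind (¬ Q x y) * (ind (P x y) - (δ0 + δ * θ / 8))) := by
              rw [← E_mul]
              congr 1
              funext x
              have e3 : ind (¬ ∀ b ∈ @Finset.univ β (Fintype.ofFinite β),
                x ∈ {x | Sum.elim (fun i => some (fill b (hat V x) i)) y ∈ A})
                = ind (¬ Q x y) := by
                congr 1
                rw [eq_iff_iff]
                simp [Q]
              rw [e3]
              ring
            rw [e2]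
            linarith)
        refine ⟨inlS (comp (hat V) W) y, ?_⟩
        rw [E_mul, E_sub, E_const] at hW
        have e4 : dens {x | inlS (comp (hat V) W) y x ∈ A} = E (fun x => ind (P (W x) y)) := by
          unfold dens
          congr 1
          funext x
          congr 1
          show (inlS (comp (hat V) W) y x ∈ A) = (Sum.elim (hat V (W x)) y ∈ A)
          rw [inlS_apply, comp_apply]
        rw [e4]
        linarith
  obtain ⟨j, hj⟩ := exists_nat_gt (1 / ϱ)
  obtain ⟨ι, hι, h⟩ := claim j
  refine ⟨ι, hι, fun A hA hdens => h A hA hdens ?_⟩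
  rw [div_lt_iff₀ hϱpos] at hj
  linarith

lemma dhj_option {β : Type} [Finite β] [Nonempty β] (hP : DHJ β) : DHJ (Option β) := by
  intro δ hδ
  by_cases hδ1 : δ ≤ 1
  swap
  · refine ⟨PEmpty, inferInstance, fun A hA => ?_⟩
    have := dens_le_one A
    linarith
  obtain ⟨γ, hγ, hinc⟩ := increment hP δ hδ hδ1
  have claim : ∀ j : ℕ, ∀ δ' : ℝ, δ ≤ δ' → 1 < δ' + j * γ → ∃ (ι : Type) (_ : Finite ι),
      ∀ A : Set (ι → Option β), δ' ≤ dens A → ∃ l : Line (Option β) ι, ∀ a, l a ∈ A := by
    intro j
    induction j with
    | zero =>
      intro δ' _ h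
      refine ⟨PEmpty, inferInstance, fun A hA => ?_⟩
      have := dens_le_one A
      simp at h
      linarith
    | succ j ih =>
      intro δ' hδ' h
      obtain ⟨η, hη, h1⟩ := ih (δ' + γ) (by linarith) (by push_cast at h; linarith)
      obtain ⟨ι, hι, h2⟩ := hinc η
      refine ⟨ι, hι, fun A hA => ?_⟩
      by_contra hcon
      obtain ⟨W, hW⟩ := h2 A hcon (hδ'.trans hA)
      obtain ⟨l, hl⟩ := h1 {x | W x ∈ A} (by linarith)
      apply hcon
      refine ⟨compLine W l, fun a => ?_⟩
      rw [compLine_apply]
      exact hl a
  obtain ⟨j, hj⟩ := exists_nat_gt (1 / γ)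
  refine claim j δ le_rfl ?_
  rw [div_lt_iff₀ hγ] at hj
  linarith

lemma dhj_equiv {α β : Type} [Finite α] [Finite β] (e : α ≃ β) (h : DHJ α) : DHJ β := by
  intro δ hδ
  obtain ⟨ι, hι, h1⟩ := h δ hδ
  refine ⟨ι, hι, fun A hA => ?_⟩
  obtain ⟨l, hl⟩ := h1 {x | (fun i => e (x i)) ∈ A} (by
    refine hA.trans (le_of_eq ?_)
    unfold dens
    rw [← E_equiv (Equiv.arrowCongr (Equiv.refl ι) e)]
    rfl)
  refine ⟨l.map e, fun b => ?_⟩
  have h2 := hl (e.symm b)
  have h3 : (fun i => e (l (e.symm b) i)) ∈ A := h2
  have h4 : (l.map e) b = fun i => e (l (e.symm b) i) := by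
    have := Line.map_apply e l (e.symm b)
    rw [Equiv.apply_symm_apply] at this
    rw [this]
    rfl
  rw [h4]
  exact h3

lemma dhj_all (β : Type) [Finite β] : Nonempty β → DHJ β := by
  suffices H : ∀ (hf : Finite β), Nonempty β → @DHJ β hf from H inferInstance
  induction β using Finite.induction_empty_option with
  | @of_equiv α β e ih =>
    intro hf hne
    have : Finite α := Finite.of_equiv β e.symm
    exact dhj_equiv e (ih this (e.nonempty_congr.mpr hne))
  | h_empty => exact fun _ h => h.elim PEmpty.elim
  | @h_option α _ ih =>
    intro hf _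
    by_cases hne : Nonempty α
    · have := ih inferInstance hne
      exact dhj_option this
    · intro δ hδ
      refine ⟨Unit, inferInstance, fun A hA => ?_⟩
      obtain ⟨x, hx⟩ := nonempty_of_dens_pos (lt_of_lt_of_le hδ hA)
      refine ⟨⟨fun _ => none, ⟨(), rfl⟩⟩, fun b => ?_⟩
      have : IsEmpty α := not_nonempty_iff.mp hne
      have h1 : (⟨fun _ => none, ⟨(), rfl⟩⟩ : Line (Option α) Unit) b = x :=
        Subsingleton.elim _ _
      rw [h1]
      exact hx

/-- The density Hales-Jewett theorem. -/
theorem density_hales_jewett (α : Type) [Fintype α] [Nonempty α] {δ : ℝ} (hδ : 0 < δ) :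
    ∃ (ι : Type) (_ : Fintype ι), ∀ A : Set (ι → α),
      δ * (Fintype.card α : ℝ) ^ (Fintype.card ι) ≤ (A.ncard : ℝ) →
      ∃ l : Combinatorics.Line α ι, ∀ a : α, l a ∈ A := by
  classical
  obtain ⟨ι, hι, h⟩ := dhj_all α inferInstance δ hδ
  let hf : Fintype ι := Fintype.ofFinite ι
  refine ⟨ι, hf, fun A hA => h A ?_⟩
  rw [dens_eq_card, Fintype.card_fun, le_div_iff₀ (by positivity)]
  push_cast
  exact hA

end Pool.Agent.DHJ
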